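import Mathlib

/-! The middle layers of the cube; a subspace of small codimension has a vector with few zeros. -/

set_option autoImplicit false
open Finset

namespace Pool.Agent.KS6_71.BO

theorem cb (N : ℕ) : (2 * N + 1) * (Nat.centralBinom N) ^ 2 ≤ 16 ^ N := by
  induction N with
  | zero => simp
  | succ n ih =>
    have h := Nat.succ_mul_centralBinom_succ n
    have h1 : (n + 1) ^ 2 * (Nat.centralBinom (n + 1)) ^ 2 =
        4 * (2 * n + 1) ^ 2 * (Nat.centralBinom n) ^ 2 := by
      have : ((n + 1) * Nat.centralBinom (n + 1)) ^ 2 =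
          (2 * (2 * n + 1) * Nat.centralBinom n) ^ 2 := by rw [h]
      nlinarith [this]
    have h2 : (n + 1) ^ 2 * ((2 * (n + 1) + 1) * (Nat.centralBinom (n + 1)) ^ 2) ≤
        (n + 1) ^ 2 * 16 ^ (n + 1) := by
      calc (n + 1) ^ 2 * ((2 * (n + 1) + 1) * (Nat.centralBinom (n + 1)) ^ 2)
          = (2 * n + 3) * ((n + 1) ^ 2 * (Nat.centralBinom (n + 1)) ^ 2) := by ring
        _ = 4 * (2 * n + 3) * (2 * n + 1) * ((2 * n + 1) * (Nat.centralBinom n) ^ 2) := by
            rw [h1]; ring
        _ ≤ 4 * (2 * n + 3) * (2 * n + 1) * 16 ^ n := Nat.mul_le_mul_left _ ih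
        _ ≤ (16 * (n + 1) ^ 2) * 16 ^ n := Nat.mul_le_mul_right _ (by nlinarith)
        _ = (n + 1) ^ 2 * 16 ^ (n + 1) := by ring
    exact Nat.le_of_mul_le_mul_left h2 (by positivity)

/-- the cube -/
abbrev Blk (N : ℕ) := Fin (2 * N) → ZMod 2

/-- the weight -/
def wt {N : ℕ} (x : Blk N) : ℕ := (univ.filter fun i => x i ≠ 0).card

/-- the number of zeros -/
def zr {N : ℕ} (x : Blk N) : ℕ := (univ.filter fun i => x i = 0).card

theorem wt_zr {N : ℕ} (x : Blk N) : zr x + wt x = 2 * N := by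
  unfold wt zr
  rw [card_filter_add_card_filter_not, card_univ, Fintype.card_fin]

theorem wt_add_one {N : ℕ} (x : Blk N) : wt (x + 1) = zr x := by
  unfold wt zr
  congr 1
  ext i
  simp only [mem_filter, mem_univ, true_and, Pi.add_apply, Pi.one_apply]
  have : ∀ a : ZMod 2, a + 1 ≠ 0 ↔ a = 0 := by decide
  exact this _

theorem wt_le {N : ℕ} (x e : Blk N) : wt e ≤ wt (x + e) + wt x := by
  unfold wt
  refine (card_le_card ?_).trans (card_union_le _ _)
  intro i
  simp only [mem_filter, mem_univ, true_and, mem_union, Pi.add_apply]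
  have : ∀ a b : ZMod 2, b ≠ 0 → (a + b ≠ 0 ∨ a ≠ 0) := by decide
  exact this _ _

theorem wt_le2 {N : ℕ} (x e : Blk N) : wt (x + e) ≤ zr x + zr e := by
  unfold wt zr
  refine (card_le_card ?_).trans (card_union_le _ _)
  intro i
  simp only [mem_filter, mem_univ, true_and, mem_union, Pi.add_apply]
  have : ∀ a b : ZMod 2, a + b ≠ 0 → (a = 0 ∨ b = 0) := by decide
  exact this _ _

/-- sign of a point of the cube: light, heavy, or near the middle -/
noncomputable def sgn (N s : ℕ) (x : Blk N) : ℝ :=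
  if wt x + s ≤ N then 1 else if N + s ≤ wt x then -1 else 0

theorem sgn_zero {N s : ℕ} (h : s ≤ N) : sgn N s 0 = 1 := by
  unfold sgn
  rw [if_pos]
  have : wt (0 : Blk N) = 0 := by
    unfold wt
    simp
  omega

theorem sgn_cases (N s : ℕ) (x : Blk N) : sgn N s x = 1 ∨ sgn N s x = -1 ∨ sgn N s x = 0 := by
  unfold sgn
  split_ifs <;> simp

theorem sgn_one {N s : ℕ} (hs : 0 < s) (x : Blk N) : sgn N s (x + 1) = - sgn N s x := by
  unfold sgn
  have h1 := wt_add_one x
  have h2 := wt_zr x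
  have h3 := wt_zr (x + 1)
  split_ifs <;> first | omega | norm_num

theorem sgn_sum {N s : ℕ} (hs : 0 < s) : ∑ x : Blk N, sgn N s x = 0 := by
  have h := Equiv.sum_comp (Equiv.addRight (1 : Blk N)) (sgn N s)
  have h2 : ∑ x : Blk N, sgn N s ((Equiv.addRight (1 : Blk N)) x) = - ∑ x : Blk N, sgn N s x := by
    rw [← sum_neg_distrib]
    exact sum_congr rfl fun x _ => sgn_one hs x
  linarith

theorem sgn_mul {N s k : ℕ} (hk : k < 2 * s) (x e : Blk N) (he : zr e ≤ k) :
    sgn N s x * sgn N s (x + e) ≤ 0 := by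
  have h1 := wt_le x e
  have h2 := wt_le2 x e
  have h3 := wt_zr x
  have h4 := wt_zr e
  unfold sgn
  split_ifs <;> first | omega | norm_num

theorem layer (N w : ℕ) : (univ.filter fun x : Blk N => wt x = w).card ≤ Nat.centralBinom N := by
  refine le_trans ?_ (Nat.choose_le_centralBinom w N)
  have h : ((univ : Finset (Fin (2 * N))).powersetCard w).card = (2 * N).choose w := by
    rw [card_powersetCard, card_univ, Fintype.card_fin]
  rw [← h]
  refine card_le_card_of_injOn (fun x => univ.filter fun i => x i ≠ 0) ?_ ?_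
  · intro x hx
    have hx' := (mem_filter.1 (Finset.mem_coe.1 hx)).2
    exact Finset.mem_coe.2 (mem_powersetCard.2 ⟨subset_univ _, hx'⟩)
  · intro x _ y _ hxy
    funext i
    have h1 : (i ∈ univ.filter fun i => x i ≠ 0) ↔ (i ∈ univ.filter fun i => y i ≠ 0) := by
      have hxy' : (univ.filter fun i => x i ≠ 0) = (univ.filter fun i => y i ≠ 0) := hxy
      rw [hxy']
    simp only [mem_filter, mem_univ, true_and] at h1
    have h2 : ∀ a b : ZMod 2, (a ≠ 0 ↔ b ≠ 0) → a = b := by decide
    exact h2 _ _ h1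

theorem middle (N : ℕ) {s : ℕ} (hs : 0 < s) : (univ.filter fun x : Blk N => N < wt x + s ∧ wt x < N + s).card ≤
    2 * s * Nat.centralBinom N := by
  have h1 : (univ.filter fun x : Blk N => N < wt x + s ∧ wt x < N + s) ⊆
      (Finset.Ioo (N - s) (N + s) ∪ {N - s}).biUnion fun w => univ.filter fun x : Blk N => wt x = w := by
    intro x hx
    simp only [mem_filter, mem_univ, true_and] at hx
    rw [mem_biUnion]
    refine ⟨wt x, ?_, by simp⟩
    rw [mem_union, Finset.mem_Ioo, mem_singleton]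
    omega
  refine (card_le_card h1).trans (card_biUnion_le.trans ?_)
  refine (sum_le_sum fun w _ => layer N w).trans ?_
  rw [sum_const, smul_eq_mul]
  refine Nat.mul_le_mul_right _ ((card_union_le _ _).trans ?_)
  rw [Nat.card_Ioo, card_singleton]
  omega

theorem sgn_sq {N s : ℕ} (hs : 0 < s) :
    (4 : ℝ) ^ N - 2 * s * Nat.centralBinom N ≤ ∑ x : Blk N, sgn N s x ^ 2 := by
  have h1 : ∀ x : Blk N, sgn N s x ^ 2 = 1 - if (N < wt x + s ∧ wt x < N + s) then (1 : ℝ) else 0 := by
    intro x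
    unfold sgn
    split_ifs <;> first | omega | norm_num
  rw [sum_congr rfl fun x _ => h1 x, sum_sub_distrib, sum_const, card_univ, sum_boole]
  have h2 : (Fintype.card (Blk N) : ℝ) = 4 ^ N := by
    rw [Fintype.card_fun, ZMod.card, Fintype.card_fin, pow_mul]
    norm_num
  have h3 : (((univ.filter fun x : Blk N => N < wt x + s ∧ wt x < N + s).card : ℕ) : ℝ) ≤
      2 * s * Nat.centralBinom N := by exact_mod_cast middle N hs
  rw [nsmul_eq_mul, mul_one, h2]
  linarith

theorem exists_N {s : ℕ} (hs : 0 < s) {ρ : ℝ} (hρ : ρ < 1) : ∃ N, s ≤ N ∧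
    ρ ≤ (∑ x : Blk N, sgn N s x ^ 2) / Fintype.card (Blk N) := by
  obtain ⟨m, hm⟩ := exists_nat_ge ((2 * s / (1 - ρ)) ^ 2)
  refine ⟨max m s, le_max_right _ _, ?_⟩
  set N := max m s with hN
  have h1 := cb N
  have h1' : ((2 : ℝ) * N + 1) * (Nat.centralBinom N : ℝ) ^ 2 ≤ 16 ^ N := by exact_mod_cast h1
  have hρ' : 0 < 1 - ρ := by linarith
  have hmN : (m : ℝ) ≤ N := by exact_mod_cast le_max_left m s
  have h2 : (2 * s / (1 - ρ)) ^ 2 ≤ 2 * N + 1 := by
    have : (0 : ℝ) ≤ N := Nat.cast_nonneg _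
    linarith
  have h3 : (2 * s : ℝ) ^ 2 ≤ (1 - ρ) ^ 2 * (2 * N + 1) := by
    rw [div_pow, div_le_iff₀ (by positivity)] at h2
    linarith
  have h4 : (2 * s * Nat.centralBinom N : ℝ) ^ 2 ≤ ((1 - ρ) * 4 ^ N) ^ 2 := by
    calc (2 * s * Nat.centralBinom N : ℝ) ^ 2 = (2 * s : ℝ) ^ 2 * (Nat.centralBinom N : ℝ) ^ 2 := by
          ring
      _ ≤ ((1 - ρ) ^ 2 * (2 * N + 1)) * (Nat.centralBinom N : ℝ) ^ 2 :=
          mul_le_mul_of_nonneg_right h3 (by positivity)
      _ = (1 - ρ) ^ 2 * ((2 * N + 1) * (Nat.centralBinom N : ℝ) ^ 2) := by ring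
      _ ≤ (1 - ρ) ^ 2 * 16 ^ N := mul_le_mul_of_nonneg_left h1' (by positivity)
      _ = ((1 - ρ) * 4 ^ N) ^ 2 := by
          rw [mul_pow, ← pow_mul, mul_comm N 2, pow_mul]
          norm_num
  have h5 : (2 * s * Nat.centralBinom N : ℝ) ≤ (1 - ρ) * 4 ^ N :=
    (abs_le_of_sq_le_sq' h4 (by positivity)).2
  have h6 := sgn_sq (N := N) hs
  have h7 : (Fintype.card (Blk N) : ℝ) = 4 ^ N := by
    rw [Fintype.card_fun, ZMod.card, Fintype.card_fin, pow_mul]
    norm_num
  rw [h7, le_div_iff₀ (by positivity)]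
  linarith

/-- a common kernel of `k` characters of the cube has a vector with at most `k` zeros -/
theorem few_zeros {N : ℕ} {κ : Type} (X : Finset κ) (χ : κ → AddChar (Blk N) Circle) :
    ∃ e : Blk N, (∀ a ∈ X, χ a e = 1) ∧ zr e ≤ X.card := by
  classical
  obtain ⟨e, he, hmax⟩ := (univ.filter fun e : Blk N => ∀ a ∈ X, χ a e = 1).exists_max_image wt
    ⟨0, by simp⟩
  simp only [mem_filter, mem_univ, true_and] at he hmax
  refine ⟨e, he, ?_⟩
  by_contra hcon
  push Not at hcon
  let Z := univ.filter fun i => e i = 0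
  have hZ : X.card < Z.card := hcon
  let ex : (Z → ZMod 2) → Blk N := fun y i => if h : i ∈ Z then y ⟨i, h⟩ else 0
  obtain ⟨y, y', hne, hyy⟩ := Fintype.exists_ne_map_eq_of_card_lt
    (fun (y : Z → ZMod 2) (a : X) => decide (χ a.1 (ex y) = 1)) (by
      rw [Fintype.card_fun, Fintype.card_fun, Fintype.card_bool, ZMod.card, Fintype.card_coe,
        Fintype.card_coe]
      exact Nat.pow_lt_pow_right (by norm_num) hZ)
  have hpm : ∀ (ψ : AddChar (Blk N) Circle) (u : Blk N),
      ((ψ u : Circle) : ℂ) = 1 ∨ ((ψ u : Circle) : ℂ) = -1 := by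
    intro ψ u
    have h1 : ψ (u + u) = 1 := by
      have : u + u = 0 := by
        funext i
        have h : ∀ a : ZMod 2, a + a = 0 := by decide
        exact h _
      rw [this, AddChar.map_zero_eq_one]
    rw [AddChar.map_add_eq_mul] at h1
    have h2 : ((ψ u : Circle) : ℂ) * ((ψ u : Circle) : ℂ) = 1 := by
      rw [← Circle.coe_mul, h1, Circle.coe_one]
    exact mul_self_eq_one_iff.1 h2
  have hu : ∀ a ∈ X, χ a (ex y - ex y') = 1 := by
    intro a ha
    have h1 : decide (χ a (ex y) = 1) = decide (χ a (ex y') = 1) := congrFun hyy ⟨a, ha⟩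
    have h2 : (χ a (ex y) = 1) ↔ (χ a (ex y') = 1) := by
      rwa [decide_eq_decide] at h1
    have h3 : χ a (ex y) = χ a (ex y') := by
      apply Circle.ext
      rcases hpm (χ a) (ex y) with h | h <;> rcases hpm (χ a) (ex y') with h' | h'
      · rw [h, h']
      · exfalso
        have h4 : χ a (ex y') = 1 := h2.1 (Circle.ext (by rw [h, Circle.coe_one]))
        rw [h4, Circle.coe_one] at h'
        norm_num at h'
      · exfalso
        have h4 : χ a (ex y) = 1 := h2.2 (Circle.ext (by rw [h', Circle.coe_one]))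
        rw [h4, Circle.coe_one] at h
        norm_num at h
      · rw [h, h']
    rw [AddChar.map_sub_eq_div, h3, div_self']
  have h1 := hmax (e + (ex y - ex y')) (by
    intro a ha
    rw [AddChar.map_add_eq_mul, he a ha, hu a ha, one_mul])
  have h2 : wt e < wt (e + (ex y - ex y')) := by
    unfold wt
    apply card_lt_card
    rw [Finset.ssubset_iff_of_subset]
    · obtain ⟨i, hi⟩ := Function.ne_iff.1 hne
      refine ⟨i.1, ?_, ?_⟩
      · simp only [mem_filter, mem_univ, true_and, Pi.add_apply, Pi.sub_apply]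
        have hi0 : e i.1 = 0 := (mem_filter.1 i.2).2
        have h3 : ex y i.1 = y i := by simp only [ex, dif_pos i.2]
        have h4 : ex y' i.1 = y' i := by simp only [ex, dif_pos i.2]
        rw [hi0, zero_add, h3, h4]
        exact sub_ne_zero.2 hi
      · simp only [mem_filter, mem_univ, true_and, not_not]
        exact (mem_filter.1 i.2).2
    · intro i hi
      simp only [mem_filter, mem_univ, true_and, Pi.add_apply, Pi.sub_apply] at hi ⊢
      have hiZ : i ∉ Z := fun h => hi (mem_filter.1 h).2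
      have h3 : ex y i = 0 := by simp only [ex, dif_neg hiZ]
      have h4 : ex y' i = 0 := by simp only [ex, dif_neg hiZ]
      rw [h3, h4, sub_zero, add_zero]
      exact hi
  omega

end Pool.Agent.KS6_71.BO
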