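import Pool.Agent.KS6_71.BO.Main

/-! Positivity of the density of solutions for homomorphisms with sum zero (adapted from the
library's endomorphism version). -/

set_option autoImplicit false
open Filter Topology Finset

namespace Pool.Agent.KS6_71.BO

open Pool.Agent.V11180.BG hiding sg S0 mem_S0 co co_apply two_mem two two_i two_k two_j K2 dsS dsK ker_bound solF bohr_main dg density

universe u

/-- the diagonal -/
def dg {ι : Type} [Fintype ι] {G H : Type u} [AddCommGroup G] [AddCommGroup H]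
    (φ : ι → G →+ H) (h : ∑ j, φ j = 0) : G →+ S0 (G := fun _ => G) φ where
  toFun x := ⟨fun _ => x, by
    show ∑ j, φ j x = 0
    rw [← AddMonoidHom.finsetSum_apply, h]
    rfl⟩
  map_zero' := rfl
  map_add' _ _ := rfl

theorem pos_sol (k : ℕ) (δ : ℝ) (hδ : 0 < δ) : ∃ c : ℝ, 0 < c ∧
    ∀ (G H : Type u) [AddCommGroup G] [AddCommGroup H] (φ : Fin (k + 1) → G →+ H),
      ∑ j, φ j = 0 → ∀ A : Set G, δ ≤ dstar A →
        c ≤ dstar (sol (G := fun _ => G) φ (fun _ => A) 0) := by
  obtain ⟨c, hc, hpos⟩ := positivity_mean.{u} k δ hδ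
  refine ⟨c, hc, ?_⟩
  intro G H _ _ φ hφ A hA
  obtain ⟨M, hM, hMI, hMA⟩ := good_of_dstar A
  obtain ⟨L, hL, hLI⟩ := exists_inv (S0 (G := fun _ => G) φ)
  set f : G → ℝ := A.indicator (fun _ => (1 : ℝ)) with hf
  have hf01 : ∀ x, f x = 0 ∨ f x = 1 := by
    intro x
    by_cases hx : x ∈ A
    · right; rw [hf, Set.indicator_of_mem hx]
    · left; rw [hf, Set.indicator_of_notMem hx]
  have h1 := hpos G (S0 (G := fun _ => G) φ) L M hL hLI hM hMI f hf01 (hA.trans hMA)
  set MM := push (pm L M) ((AddMonoidHom.id (S0 (G := fun _ => G) φ)).coprod (dg φ hφ)) with hMM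
  have hMM1 : IsMn MM := isMn_push (pm_mn hL hM) _
  have hMM2 : Inv MM := push_inv (pm_mn hL hM) (pm_inv hM hLI hMI) _ fun s => ⟨(s, 0), by simp⟩
  refine le_trans ?_ (le_dstar' _ hMM1 hMM2)
  refine h1.trans (le_of_eq ?_)
  rw [hMM, push_apply, pm_apply]
  congr 1
  refine M_congr L fun t => ?_
  have h2 : M (fun x => ((∏ j, f (x + t.1 j) : ℝ) : ℂ)) =
      M (fun x => (((sol (G := fun _ => G) φ (fun _ => A) 0).indicator (fun _ => (1 : ℝ))
        (((AddMonoidHom.id (S0 (G := fun _ => G) φ)).coprod (dg φ hφ)) (t, x)) : ℝ) : ℂ)) := by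
    refine M_congr M fun x => ?_
    congr 1
    rw [ind_sol]
    show ∏ j, f (x + t.1 j) = ∏ j, f (t.1 j + x + 0)
    exact prod_congr rfl fun j _ => by rw [add_comm, add_zero]
  rw [← h2]
  apply Complex.ext
  · rw [Complex.ofReal_re]
  · rw [Complex.ofReal_im]
    refine (hM.im0 (fun x => ∏ j, f (x + t.1 j)) 1 fun x => ?_).symm
    have h0 : ∀ y, 0 ≤ f y := fun y => by rcases hf01 y with h | h <;> rw [h]; norm_num
    have h0' : ∀ y, f y ≤ 1 := fun y => by
      rcases hf01 y with h | h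
      · rw [h]; norm_num
      · rw [h]
    rw [abs_of_nonneg (prod_nonneg fun j _ => h0 _)]
    exact prod_le_one (fun j _ => h0 _) fun j _ => h0' _

/-- a set of positive upper Banach density is not empty -/
theorem nonempty_of_dstar {G : Type u} [AddCommGroup G] {A : Set G} (h : 0 < dstar A) :
    A.Nonempty := by
  by_contra hA
  rw [Set.not_nonempty_iff_eq_empty] at hA
  obtain ⟨M, hM, hMI, hMA⟩ := good_of_dstar A
  have : (M (fun x => ((indB A).1 x : ℂ))).re = 0 := by
    have e : ∀ x, ((indB A).1 x : ℂ) = (0 : ℂ) * 0 := fun x => by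
      show (((A.indicator (fun _ => (1 : ℝ)) x : ℝ)) : ℂ) = _
      rw [hA, Set.indicator_empty]
      simp
    rw [M_congr M e, M_cmul, zero_mul]
    rfl
  rw [this] at hMA
  linarith

end Pool.Agent.KS6_71.BO
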