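import Pool.Agent.KS6_71.BO.Tr
import Pool.Agent.KS6_71.BO.Blk

/-! Two summands: a dense set whose difference set contains no Bohr set, in a direct sum of
cubes. -/

set_option autoImplicit false
open Filter Topology Finset

namespace Pool.Agent.KS6_71.BO

open Pool.Agent.V11180.BG hiding sg S0 mem_S0 co co_apply two_mem two two_i two_k two_j K2 dsS dsK ker_bound solF bohr_main dg density

section E
variable {B : ℕ → Type} [∀ k, AddCommGroup (B k)] [∀ k, Fintype (B k)]

/-- averaging over the coordinate `k` -/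
noncomputable def TT (k : ℕ) (F : (Π₀ k, B k) → ℝ) (x : Π₀ k, B k) : ℝ :=
  (∑ y : B k, F (x + DFinsupp.single k y)) / Fintype.card (B k)

/-- averaging over the coordinates less than `K`, at zero -/
noncomputable def EE : ℕ → ((Π₀ k, B k) → ℝ) → ℝ
  | 0, F => F 0
  | K + 1, F => EE K (TT K F)

theorem EE_add (K : ℕ) (F F' : (Π₀ k, B k) → ℝ) : EE K (fun x => F x + F' x) = EE K F + EE K F' := by
  induction K generalizing F F' with
  | zero => rfl
  | succ K ih =>
    show EE K (TT K _) = EE K (TT K F) + EE K (TT K F')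
    rw [← ih]
    congr 1
    funext x
    unfold TT
    rw [sum_add_distrib, add_div]

theorem EE_smul (K : ℕ) (c : ℝ) (F : (Π₀ k, B k) → ℝ) : EE K (fun x => c * F x) = c * EE K F := by
  induction K generalizing F with
  | zero => rfl
  | succ K ih =>
    show EE K (TT K _) = c * EE K (TT K F)
    rw [← ih]
    congr 1
    funext x
    unfold TT
    rw [← mul_sum, mul_div_assoc]

theorem EE_nonneg (K : ℕ) (F : (Π₀ k, B k) → ℝ) (h : ∀ x, 0 ≤ F x) : 0 ≤ EE K F := by
  induction K generalizing F with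
  | zero => exact h 0
  | succ K ih =>
    refine ih _ fun x => ?_
    unfold TT
    exact div_nonneg (sum_nonneg fun y _ => h _) (Nat.cast_nonneg _)

theorem card_ne (k : ℕ) : (Fintype.card (B k) : ℝ) ≠ 0 := by
  have : 0 < Fintype.card (B k) := Fintype.card_pos
  positivity

theorem EE_const (K : ℕ) (c : ℝ) : EE K (fun _ : Π₀ k, B k => c) = c := by
  induction K with
  | zero => rfl
  | succ K ih =>
    have : TT K (fun _ : Π₀ k, B k => c) = fun _ => c := by
      funext x
      unfold TT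
      rw [sum_const, card_univ, nsmul_eq_mul, mul_comm, mul_div_assoc, div_self (card_ne K), mul_one]
    show EE K (TT K _) = c
    rw [this, ih]

theorem EE_mono (K : ℕ) (F F' : (Π₀ k, B k) → ℝ) (h : ∀ x, F x ≤ F' x) : EE K F ≤ EE K F' := by
  have h1 := EE_nonneg K (fun x => F' x + (-1) * F x) fun x => by linarith [h x]
  rw [EE_add, EE_smul] at h1
  linarith

theorem EE_abs (K : ℕ) (F : (Π₀ k, B k) → ℝ) (C : ℝ) (h : ∀ x, |F x| ≤ C) : |EE K F| ≤ C := by
  rw [abs_le]
  constructor
  · rw [← EE_const (B := B) K (-C)]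
    exact EE_mono K _ _ fun x => (abs_le.1 (h x)).1
  · rw [← EE_const (B := B) K C]
    exact EE_mono K _ _ fun x => (abs_le.1 (h x)).2

theorem EE_inv (K : ℕ) (F : (Π₀ k, B k) → ℝ) (a : Π₀ k, B k) (ha : ∀ k, K ≤ k → a k = 0) :
    EE K (fun x => F (x + a)) = EE K F := by
  induction K generalizing F a with
  | zero =>
    have : a = 0 := DFinsupp.ext fun k => ha k (Nat.zero_le _)
    rw [this]
    show F (0 + 0) = F 0
    rw [add_zero]
  | succ K ih =>
    have h1 := ih (TT K F) (a - DFinsupp.single K (a K)) (by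
      intro k hk
      rw [DFinsupp.sub_apply]
      rcases Nat.eq_or_lt_of_le hk with h | h
      · subst h
        rw [DFinsupp.single_eq_same, sub_self]
      · rw [ha k h, DFinsupp.single_eq_of_ne (by omega), sub_zero])
    show EE K (TT K _) = EE K (TT K F)
    rw [← h1]
    congr 1
    funext x
    unfold TT
    congr 1
    rw [← Equiv.sum_comp (Equiv.addRight (a K))
      (fun y => F (x + (a - DFinsupp.single K (a K)) + DFinsupp.single K y))]
    refine sum_congr rfl fun y _ => ?_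
    have e : x + DFinsupp.single K y + a = x + (a - DFinsupp.single K (a K)) +
        DFinsupp.single K (y + a K) := by
      rw [DFinsupp.single_add]
      abel
    show F (x + DFinsupp.single K y + a) = F (x + (a - DFinsupp.single K (a K)) +
      DFinsupp.single K (y + a K))
    rw [e]

theorem EE_congr (K : ℕ) (F F' : (Π₀ k, B k) → ℝ) (h : ∀ x : Π₀ k, B k, (∀ k, K ≤ k → x k = 0) → F x = F' x) :
    EE K F = EE K F' := by
  induction K generalizing F F' with
  | zero => exact h 0 fun k _ => rfl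
  | succ K ih =>
    refine ih _ _ fun x hx => ?_
    unfold TT
    congr 1
    refine sum_congr rfl fun y _ => h _ fun k hk => ?_
    rw [DFinsupp.add_apply, hx k (by omega), DFinsupp.single_eq_of_ne (by omega), add_zero]

theorem EE_prod (f : ∀ k, B k → ℝ) (K : ℕ) :
    EE K (fun x => ∏ k ∈ range K, f k (x k)) =
      ∏ k ∈ range K, ((∑ y, f k y) / Fintype.card (B k)) := by
  induction K with
  | zero =>
    rw [range_zero, prod_empty]
    show ∏ k ∈ (∅ : Finset ℕ), _ = _
    rw [prod_empty]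
  | succ K ih =>
    rw [prod_range_succ, ← ih, mul_comm, ← EE_smul]
    show EE K (TT K _) = _
    refine EE_congr K _ _ fun x hx => ?_
    unfold TT
    rw [div_mul_eq_mul_div, sum_mul]
    congr 1
    refine sum_congr rfl fun y _ => ?_
    show ∏ k ∈ range (K + 1), f k ((x + DFinsupp.single K y) k) =
      f K y * ∏ k ∈ range K, f k (x k)
    rw [prod_range_succ, mul_comm]
    congr 1
    · rw [DFinsupp.add_apply, hx K le_rfl, DFinsupp.single_eq_same, zero_add]
    · refine prod_congr rfl fun k hk => ?_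
      rw [DFinsupp.add_apply, DFinsupp.single_eq_of_ne (by
        have := Finset.mem_range.1 hk
        omega), add_zero]

theorem eventually_zero (a : Π₀ k, B k) : ∃ K, ∀ k, K ≤ k → a k = 0 := by
  classical
  refine ⟨a.support.sup id + 1, fun k hk => ?_⟩
  by_contra h
  have h1 : k ∈ a.support := DFinsupp.mem_support_iff.2 h
  have h2 : k ≤ a.support.sup id := Finset.le_sup (f := id) h1
  omega

/-- an invariant mean on the direct sum -/
theorem exists_mean : ∃ m : BR (Π₀ k, B k) →ₗ[ℝ] ℝ, IsInvMean m ∧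
    ∀ (F : BR (Π₀ k, B k)) (c : ℝ), (∀ K, c ≤ EE K F.1) → c ≤ m F := by
  have hlim : ∀ F : BR (Π₀ k, B k), ∃ y,
      Tendsto (fun K => EE K F.1) (hyperfilter ℕ : Ultrafilter ℕ) (𝓝 y) := by
    intro F
    obtain ⟨C, hC⟩ := F.2
    exact ex_lim _ C fun K => EE_abs K _ C hC
  choose m hm using hlim
  refine ⟨{ toFun := m, map_add' := ?_, map_smul' := ?_ }, ⟨?_, ?_, ?_⟩, ?_⟩
  · intro F F'
    refine tendsto_nhds_unique (hm (F + F')) (((hm F).add (hm F')).congr fun K => ?_)
    exact (EE_add K F.1 F'.1).symm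
  · intro c F
    refine tendsto_nhds_unique (hm (c • F)) (((hm F).const_mul c).congr fun K => ?_)
    exact (EE_smul K c F.1).symm
  · intro F hF
    exact ge_of_tendsto' (hm F) fun K => EE_nonneg K _ hF
  · refine tendsto_nhds_unique (hm oneR) (tendsto_const_nhds.congr fun K => ?_)
    exact (EE_const K 1).symm
  · intro a F
    obtain ⟨K0, hK0⟩ := eventually_zero a
    refine tendsto_nhds_unique (hm (trR a F)) ((hm F).congr' ?_)
    have h1 : ∀ᶠ K in (hyperfilter ℕ : Ultrafilter ℕ), K0 ≤ K := by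
      have : ∀ᶠ K in atTop, K0 ≤ K := eventually_ge_atTop K0
      rw [← Nat.cofinite_eq_atTop] at this
      exact Filter.hyperfilter_le_cofinite this
    filter_upwards [h1] with K hK
    exact (EE_inv K F.1 a fun k hk => hK0 k (hK.trans hk)).symm
  · intro F c hF
    exact ge_of_tendsto' (hm F) hF

end E

section A
variable (N : ℕ → ℕ)

/-- product of the signs -/
noncomputable def PP (K : ℕ) (x : Π₀ k, Blk (N k)) : ℝ := ∏ k ∈ range K, sgn (N k) (k + 1) (x k)

/-- the dense set -/
def AA : Set (Π₀ k, Blk (N k)) := {x | ∃ K, (∀ k, K ≤ k → x k = 0) ∧ PP N K x = 1}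

variable {N}

theorem PP_stable (hN : ∀ k, k + 1 ≤ N k) {K K' : ℕ} (h : K ≤ K') (x : Π₀ k, Blk (N k))
    (hx : ∀ k, K ≤ k → x k = 0) : PP N K' x = PP N K x := by
  unfold PP
  symm
  refine prod_subset (range_mono h) fun k _ hk => ?_
  rw [hx k (by
    rw [Finset.mem_range] at hk
    omega), sgn_zero (hN k)]

theorem mem_AA (hN : ∀ k, k + 1 ≤ N k) {K : ℕ} (x : Π₀ k, Blk (N k))
    (hx : ∀ k, K ≤ k → x k = 0) : x ∈ AA N ↔ PP N K x = 1 := by
  constructor
  · rintro ⟨K', hK', h⟩
    rcases le_total K K' with h1 | h1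
    · rw [← PP_stable hN h1 x hx, h]
    · rw [PP_stable hN h1 x hK', h]
  · intro h
    exact ⟨K, hx, h⟩

theorem PP_cases (K : ℕ) (x : Π₀ k, Blk (N k)) : PP N K x = 1 ∨ PP N K x = -1 ∨ PP N K x = 0 := by
  unfold PP
  induction K with
  | zero => left; simp
  | succ K ih =>
    rw [prod_range_succ]
    rcases ih with h | h | h <;> rcases sgn_cases (N K) (K + 1) (x K) with h' | h' | h' <;>
      rw [h, h'] <;> norm_num

theorem AA_density (hN : ∀ k, k + 1 ≤ N k) {δ : ℝ} (r : ℕ → ℝ) (hr0 : r 0 = 1)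
    (hr : ∀ k, 2 * δ ≤ r k) (hrp : ∀ k, 0 < r k)
    (h : ∀ k, r (k + 1) / r k ≤
      (∑ x : Blk (N k), sgn (N k) (k + 1) x ^ 2) / Fintype.card (Blk (N k))) :
    δ ≤ dstar (AA N) := by
  classical
  obtain ⟨m, hm, hmc⟩ := exists_mean (B := fun k => Blk (N k))
  refine le_trans (hmc (indB (AA N)) δ fun K => ?_) (le_dstar (AA N) hm)
  have e1 : EE K (indB (AA N)).1 = EE K (fun x => (1 / 2) * PP N K x +
      (1 / 2) * ∏ k ∈ range K, sgn (N k) (k + 1) (x k) ^ 2) := by
    refine EE_congr K _ _ fun x hx => ?_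
    show (AA N).indicator (fun _ => (1 : ℝ)) x = _
    rw [prod_pow]
    change _ = 1 / 2 * PP N K x + 1 / 2 * (PP N K x) ^ 2
    by_cases hxA : x ∈ AA N
    · rw [Set.indicator_of_mem hxA, (mem_AA hN x hx).1 hxA]
      norm_num
    · rw [Set.indicator_of_notMem hxA]
      rcases PP_cases K x with h' | h' | h'
      · exact absurd ((mem_AA hN x hx).2 h') hxA
      · rw [h']; norm_num
      · rw [h']; norm_num
  rw [e1, EE_add, EE_smul, EE_smul]
  have e2 : EE K (fun x : Π₀ k, Blk (N k) => PP N K x) =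
      ∏ k ∈ range K, ((∑ y, sgn (N k) (k + 1) y) / Fintype.card (Blk (N k))) :=
    EE_prod (B := fun k => Blk (N k)) (fun k => sgn (N k) (k + 1)) K
  have e3 : EE K (fun x : Π₀ k, Blk (N k) => ∏ k ∈ range K, sgn (N k) (k + 1) (x k) ^ 2) =
      ∏ k ∈ range K, ((∑ y, sgn (N k) (k + 1) y ^ 2) / Fintype.card (Blk (N k))) :=
    EE_prod (B := fun k => Blk (N k)) (fun k y => sgn (N k) (k + 1) y ^ 2) K
  have h2 : 0 ≤ EE K (fun x : Π₀ k, Blk (N k) => PP N K x) := by
    rw [e2]
    refine prod_nonneg fun k _ => ?_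
    rw [sgn_sum (by omega), zero_div]
  have h3 : r K ≤ EE K (fun x : Π₀ k, Blk (N k) => ∏ k ∈ range K, sgn (N k) (k + 1) (x k) ^ 2) := by
    rw [e3]
    clear e1 e2 e3 h2
    induction K with
    | zero => rw [hr0, range_zero, prod_empty]
    | succ K ih =>
      rw [prod_range_succ]
      calc r (K + 1) = r K * (r (K + 1) / r K) := by
            rw [mul_div_cancel₀ _ (hrp K).ne']
        _ ≤ _ := mul_le_mul ih (h K) (div_nonneg (hrp _).le (hrp _).le) ((hrp K).le.trans ih)
  have h4 := hr K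
  linarith

theorem AA_diff (hN : ∀ k, k + 1 ≤ N k) (k : ℕ) (e : Blk (N k)) (he : zr e ≤ k)
    (a b : Π₀ k, Blk (N k)) (ha : a ∈ AA N) (hb : b ∈ AA N) : a - b ≠ DFinsupp.single k e := by
  intro hab
  have hab' : a = b + DFinsupp.single k e := by
    rw [← hab]
    abel
  obtain ⟨K, hK⟩ := eventually_zero b
  set L := max K (k + 1) with hL
  have hbL : ∀ j, L ≤ j → b j = 0 := fun j hj => hK j ((le_max_left _ _).trans hj)
  have haL : ∀ j, L ≤ j → a j = 0 := fun j hj => by
    have : k + 1 ≤ j := (le_max_right K (k + 1)).trans hj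
    rw [hab', DFinsupp.add_apply, hbL j hj, DFinsupp.single_eq_of_ne (by omega), add_zero]
  have h1 := (mem_AA hN a haL).1 ha
  have h2 := (mem_AA hN b hbL).1 hb
  have hkL : k ∈ range L := Finset.mem_range.2 ((Nat.lt_succ_self k).trans_le (le_max_right _ _))
  unfold PP at h1 h2
  rw [← mul_prod_erase _ _ hkL] at h1 h2
  have h3 : ∏ j ∈ (range L).erase k, sgn (N j) (j + 1) (a j) =
      ∏ j ∈ (range L).erase k, sgn (N j) (j + 1) (b j) := by
    refine prod_congr rfl fun j hj => ?_
    rw [hab', DFinsupp.add_apply, DFinsupp.single_eq_of_ne (ne_of_mem_erase hj), add_zero]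
  have h4 : a k = b k + e := by
    rw [hab', DFinsupp.add_apply, DFinsupp.single_eq_same]
  rw [h3, h4] at h1
  have h5 := sgn_mul (N := N k) (s := k + 1) (k := k) (by omega) (b k) e he
  set R := ∏ j ∈ (range L).erase k, sgn (N j) (j + 1) (b j)
  have h6 : (sgn (N k) (k + 1) (b k) * sgn (N k) (k + 1) (b k + e)) * R ^ 2 = 1 := by
    calc (sgn (N k) (k + 1) (b k) * sgn (N k) (k + 1) (b k + e)) * R ^ 2 =
        (sgn (N k) (k + 1) (b k + e) * R) * (sgn (N k) (k + 1) (b k) * R) := by ring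
      _ = 1 := by rw [h1, h2, one_mul]
  nlinarith [sq_nonneg R, mul_nonneg (neg_nonneg.2 h5) (sq_nonneg R)]

end A

/-- for two maps: a dense set whose difference set contains no Bohr set -/
theorem two_fail (δ : ℝ) (hδ : δ < 1 / 2) : ∃ (G : Type) (_ : AddCommGroup G), Countable G ∧
    (∀ g : G, g + g = 0) ∧ ∃ A : Set G, δ ≤ dstar A ∧ ∀ X : Finset (AddChar G Circle),
      ∃ g : G, (∀ χ ∈ X, χ g = 1) ∧ ∀ a ∈ A, ∀ b ∈ A, a - b ≠ g := by
  classical
  obtain ⟨δ', hδ1, hδ2, hδ3⟩ : ∃ δ' : ℝ, δ ≤ δ' ∧ 0 < δ' ∧ δ' < 1 / 2 :=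
    ⟨max δ (1 / 4), le_max_left _ _, lt_of_lt_of_le (by norm_num) (le_max_right _ _),
      max_lt hδ (by norm_num)⟩
  let r : ℕ → ℝ := fun k => 2 * δ' + (1 - 2 * δ') / 2 ^ k
  have hrp : ∀ k, 0 < r k := fun k => by
    have : 0 < (1 - 2 * δ') / 2 ^ k := div_pos (by linarith) (by positivity)
    show 0 < 2 * δ' + (1 - 2 * δ') / 2 ^ k
    linarith
  have hlt : ∀ k, r (k + 1) / r k < 1 := fun k => by
    rw [div_lt_one (hrp k)]
    show 2 * δ' + (1 - 2 * δ') / 2 ^ (k + 1) < 2 * δ' + (1 - 2 * δ') / 2 ^ k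
    have h1 : 0 < (1 - 2 * δ') / 2 ^ k := div_pos (by linarith) (by positivity)
    rw [pow_succ, ← div_div]
    linarith
  have hex := fun k => exists_N (s := k + 1) (Nat.succ_pos k) (hlt k)
  choose N hN1 hN2 using hex
  refine ⟨Π₀ k, Blk (N k), inferInstance, inferInstance, fun g => ?_, AA N, ?_, fun X => ?_⟩
  · refine DFinsupp.ext fun k => ?_
    rw [DFinsupp.add_apply, DFinsupp.zero_apply]
    funext i
    have : ∀ a : ZMod 2, a + a = 0 := by decide
    exact this _
  · refine hδ1.trans (AA_density hN1 r ?_ ?_ hrp hN2)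
    · show 2 * δ' + (1 - 2 * δ') / 2 ^ 0 = 1
      norm_num
    · intro k
      have : 0 < (1 - 2 * δ') / 2 ^ k := div_pos (by linarith) (by positivity)
      show 2 * δ' ≤ 2 * δ' + (1 - 2 * δ') / 2 ^ k
      linarith
  · set k := X.card with hk
    obtain ⟨e, he, hz⟩ := few_zeros (N := N k) X (fun χ => χ.compAddMonoidHom
      (DFinsupp.singleAddHom (fun k => Blk (N k)) k))
    refine ⟨DFinsupp.single k e, fun χ hχ => he χ hχ, fun a ha b hb => ?_⟩
    exact AA_diff hN1 k e hz a b ha hb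

end Pool.Agent.KS6_71.BO
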