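import Pool.Agent.KS6_71.BO.Ker

/-! Semicontinuity at zero of the density of solutions, up to a Bohr set (adapted from the
library's endomorphism version). -/

set_option autoImplicit false
open Filter Topology Finset
open scoped ComplexConjugate

namespace Pool.Agent.KS6_71.BO

open Pool.Agent.V11180.BG hiding sg S0 mem_S0 co co_apply two_mem two two_i two_k two_j K2 dsS dsK ker_bound solF bohr_main dg density

universe u v

section
variable {ι : Type} [Fintype ι] {G : ι → Type u} [∀ j, AddCommGroup (G j)]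
  {H : Type u} [AddCommGroup H] (φ : ∀ j, G j →+ H)

/-- the solutions of `∑ φ_j (x_j) = ∑ φ_j (t_j)` with `x_j ∈ A_j`, moved into the kernel by `-t` -/
def sol (A : ∀ j, Set (G j)) (t : ∀ j, G j) : Set (S0 φ) := {s | ∀ j, s.1 j + t j ∈ A j}

theorem ind_sol (A : ∀ j, Set (G j)) (t : ∀ j, G j) (x : S0 φ) :
    (sol φ A t).indicator (fun _ => (1 : ℝ)) x =
      ∏ l, (A l).indicator (fun _ => (1 : ℝ)) (x.1 l + t l) := by
  classical
  by_cases hx : x ∈ sol φ A t
  · rw [Set.indicator_of_mem hx, prod_eq_one]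
    intro l _
    rw [Set.indicator_of_mem (hx l)]
  · rw [Set.indicator_of_notMem hx]
    have hx' : ¬ ∀ j, x.1 j + t j ∈ A j := hx
    push Not at hx'
    obtain ⟨j, hj⟩ := hx'
    exact (prod_eq_zero (mem_univ j) (Set.indicator_of_notMem hj _)).symm

end

section
variable {G : Type u} [AddCommGroup G]

/-- the values of invariant means are bounded by the upper Banach density -/
theorem le_dstar (A : Set G) {m : BR G →ₗ[ℝ] ℝ} (hm : IsInvMean m) : m (indB A) ≤ dstar A := by
  refine le_csSup ⟨1, ?_⟩ ⟨m, hm, rfl⟩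
  rintro r ⟨m', hm', rfl⟩
  have h1 : 0 ≤ m' (oneR - indB A) := hm'.nonneg _ fun x => by
    show 0 ≤ (1 : ℝ) - A.indicator (fun _ => (1 : ℝ)) x
    by_cases hx : x ∈ A
    · rw [Set.indicator_of_mem hx]; norm_num
    · rw [Set.indicator_of_notMem hx]; norm_num
  rw [map_sub, hm'.one] at h1
  linarith

/-- the same for complex means -/
theorem le_dstar' (A : Set G) {M : (G → ℂ) →ₗ[ℂ] ℂ} (hM : IsMn M) (hMI : Inv M) :
    (M (fun x => ((A.indicator (fun _ => (1 : ℝ)) x : ℝ) : ℂ))).re ≤ dstar A := by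
  obtain ⟨m, hm, hmF⟩ := toReal hM hMI
  have := le_dstar A hm
  rw [hmF] at this
  exact this

end

theorem bohr_main (c : ℝ) (hc : 0 < c) (n : ℕ) : ∃ K : ℕ, ∃ η : ℝ, 0 < η ∧
    ∀ (ι : Type) [Fintype ι] [DecidableEq ι] (G : ι → Type u) [∀ j, AddCommGroup (G j)]
      (H : Type u) [AddCommGroup H] (φ : ∀ j, G j →+ H)
      (i j k : ι), i ≠ j → i ≠ k → j ≠ k →
      (∀ l, (l = i ∨ l = j ∨ l = k) → (φ l).range.index ≠ 0 ∧ (φ l).range.index ≤ n) →
      ∀ (A : ∀ j, Set (G j)),
      ∃ X : Finset (AddChar H Circle), X.card ≤ K ∧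
        ∀ g : H, (∀ χ ∈ X, ‖((χ g : Circle) : ℂ) - 1‖ < η) →
          ∃ t : ∀ j, G j, ∑ l, φ l (t l) = g ∧ dstar (sol φ A 0) - c ≤ dstar (sol φ A t) := by
  classical
  obtain ⟨ε, hεd⟩ : ∃ ε : ℝ, ε = (c / (8 * (n + 1))) ^ 2 := ⟨_, rfl⟩
  have hn0 : (0 : ℝ) ≤ n := Nat.cast_nonneg n
  have hε : 0 < ε := by rw [hεd]; positivity
  refine ⟨n * n + ⌈1 / ε ^ 2⌉₊, min 1 (c * ε ^ 2 / 4), by positivity, ?_⟩
  intro ι _ _ G _ H _ φ i j k hij hik hjk hidx A
  obtain ⟨M, hM, hMI, hE, hmax⟩ := exists_good (indB (sol φ A 0))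
  have hMc : dstar (sol φ A 0) ≤ (M (fun x => ((indB (sol φ A 0)).1 x : ℂ))).re := by
    obtain ⟨m, hm, -, -⟩ := Pool.Agent.V11180.BG.ext (indB (sol φ A 0))
    refine csSup_le ⟨_, m, hm, rfl⟩ ?_
    rintro r ⟨m', hm', rfl⟩
    exact hmax m' hm'
  -- notation
  obtain ⟨f, hf⟩ : ∃ f : ∀ l, G l → ℝ, ∀ l, f l = (A l).indicator (fun _ => (1 : ℝ)) :=
    ⟨_, fun _ => rfl⟩
  have hf01 : ∀ l x, 0 ≤ f l x ∧ f l x ≤ 1 := by
    intro l x
    by_cases hx : x ∈ A l
    · rw [hf, Set.indicator_of_mem hx]; norm_num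
    · rw [hf, Set.indicator_of_notMem hx]; norm_num
  have hfn : ∀ l x, ‖(f l x : ℂ)‖ ≤ 1 := fun l x => by
    rw [Complex.norm_real, Real.norm_eq_abs, abs_of_nonneg (hf01 l x).1]; exact (hf01 l x).2
  obtain ⟨F1, hF1⟩ : ∃ F1 : S0 φ → ℂ, ∀ x, F1 x = (f i (x.1 i) : ℂ) := ⟨_, fun _ => rfl⟩
  obtain ⟨R, hR⟩ : ∃ R : S0 φ → ℂ, ∀ x, R x = ∏ l ∈ univ.erase i, (f l (x.1 l) : ℂ) :=
    ⟨_, fun _ => rfl⟩
  have hF1n : ∀ x, ‖F1 x‖ ≤ 1 := fun x => by rw [hF1]; exact hfn _ _
  have hRn : ∀ x, ‖R x‖ ≤ 1 := fun x => by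
    rw [hR, norm_prod]
    exact prod_le_one (fun l _ => norm_nonneg _) fun l _ => hfn _ _
  have hF1b : Bd F1 := Bd.of1 hF1n
  have hRb : Bd R := Bd.of1 hRn
  have hF1i : ∀ s : S0 φ, s.1 i = 0 → ∀ x, F1 (x + s) = F1 x := by
    intro s hs x
    rw [hF1, hF1]
    congr 2
    show x.1 i + s.1 i = x.1 i
    rw [hs, add_zero]
  have hM0 : dstar (sol φ A 0) ≤ (M (fun x => F1 x * R x)).re := by
    refine hMc.trans (le_of_eq ?_)
    congr 1
    refine M_congr M fun x => ?_
    rw [hF1, hR, mul_prod_erase univ (fun l => (f l (x.1 l) : ℂ)) (mem_univ i)]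
    show (((sol φ A 0).indicator (fun _ => (1 : ℝ)) x : ℝ) : ℂ) = _
    rw [ind_sol]
    push_cast
    refine prod_congr rfl fun l _ => ?_
    rw [hf, Pi.zero_apply, add_zero]
  -- the spectrum
  have hF1sq : (M (fun x => ((‖F1 x‖ ^ 2 : ℝ) : ℂ))).re ≤ 1 := by
    have := hM.nsq_le 1 hF1n
    simpa using this
  obtain ⟨Q, hQch, hQ0, hQc, hQs, hQn⟩ := exists_Q hM hMI hF1b hF1sq ε hε
  have hQtriv : ∀ ψ ∈ Q, ∀ s : S0 φ, s.1 i = 0 → ψ s = 1 := by
    intro ψ hψ s hs
    have h1 := hMI (fun x => conj (ψ x) * F1 x) ((hQch ψ hψ).bd.conj.mul hF1b) s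
    have h2 : M (fun x => conj (ψ (x + s)) * F1 (x + s)) = conj (ψ s) * M (fun x => conj (ψ x) * F1 x) := by
      rw [← M_cmul]
      refine M_congr M fun x => ?_
      rw [hF1i s hs, (hQch ψ hψ).1, map_mul]
      ring
    rw [h2] at h1
    have h3 : conj (ψ s) = 1 := mul_right_cancel₀ (hQ0 ψ hψ) (by
      rw [one_mul]; exact h1)
    rw [← Complex.conj_conj (ψ s), h3, map_one]
  obtain ⟨Fu, hFu⟩ : ∃ Fu : S0 φ → ℂ, ∀ x, Fu x = F1 x - fS M F1 Q x := ⟨_, fun _ => rfl⟩
  have hFub : Bd Fu := by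
    have := hF1b.sub (fS_bd (M := M) F1 Q hQch)
    refine (show (fun x => F1 x - fS M F1 Q x) = Fu from funext fun x => (hFu x).symm) ▸ this
  have hFui : ∀ s : S0 φ, s.1 i = 0 → ∀ x, Fu (x + s) = Fu x := by
    intro s hs x
    rw [hFu, hFu, hF1i s hs]
    congr 1
    unfold fS
    refine sum_congr rfl fun ψ hψ => ?_
    rw [(hQch ψ hψ).1, hQtriv ψ hψ s hs, mul_one]
  have hFuψ : ∀ ψ : S0 φ → ℂ, IsCh ψ → ‖M (fun x => conj (ψ x) * Fu x)‖ ≤ ε := by
    intro ψ hψ
    refine le_trans (le_of_eq ?_) (hQs ψ hψ)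
    unfold cf
    congr 1
    exact M_congr M fun x => by rw [hFu]
  have hFun : (M (fun x => ((‖Fu x‖ ^ 2 : ℝ) : ℂ))).re ≤ 1 := by
    refine le_trans (le_of_eq ?_) hQn
    congr 1
    exact M_congr M fun x => by rw [hFu]
  -- the subgroups
  obtain ⟨hi0, hin⟩ := hidx i (Or.inl rfl)
  obtain ⟨hj0, hjn⟩ := hidx j (Or.inr (Or.inl rfl))
  obtain ⟨hk0, hkn⟩ := hidx k (Or.inr (Or.inr rfl))
  have hNle : (φ j).range.comap ((φ k).comp (co φ k)) ≤ (co φ i).ker ⊔ (co φ k).ker := by
    rintro s ⟨u, hu⟩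
    have hu' : φ k (s.1 k) + φ j (-u) = 0 := by
      have : φ j u = φ k (s.1 k) := hu
      rw [map_neg, this, add_neg_cancel]
    rw [AddSubgroup.mem_sup]
    refine ⟨two φ hjk.symm hu', two_j φ hjk.symm hu' hik hij, s - two φ hjk.symm hu', ?_, by abel⟩
    show s.1 k - (two φ hjk.symm hu').1 k = 0
    rw [two_i, sub_self]
  obtain ⟨hN1, hN2⟩ := idx_comap ((φ k).comp (co φ k)) hj0 (le_refl ((φ j).range.comap ((φ k).comp (co φ k))))
  have hPle : (φ k).range.comap ((φ i).comp (co φ i)) ≤ (dsK φ hik).range := by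
    rintro s ⟨u, hu⟩
    have hu' : φ i (s.1 i) + φ k (-u) = 0 := by
      have : φ k u = φ i (s.1 i) := hu
      rw [map_neg, this, add_neg_cancel]
    have hmem : (s.1 i, -u) ∈ K2 φ i k := hu'
    refine ⟨(⟨(s.1 i, -u), hmem⟩, ⟨s - two φ hik hu', ?_⟩), ?_⟩
    · show s.1 i - (two φ hik hu').1 i = 0
      rw [two_i, sub_self]
    · show two φ hik hu' + (s - two φ hik hu') = s
      abel
  obtain ⟨hP1, hP2⟩ := idx_comap ((φ i).comp (co φ i)) hk0 hPle
  set W : AddSubgroup H := ((φ i).comp (co φ i)).range with hW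
  have hHle : (φ i).range ⊓ (φ j).range ≤ W := by
    rintro g ⟨⟨a, ha⟩, ⟨b, hb⟩⟩
    have hu' : φ i a + φ j (-b) = 0 := by
      rw [map_neg, ha, hb, add_neg_cancel]
    refine ⟨two φ hij hu', ?_⟩
    show φ i ((two φ hij hu').1 i) = g
    rw [two_i, ha]
  obtain ⟨hH1, hH2⟩ := idx_le (AddSubgroup.index_inf_ne_zero hi0 hj0) hHle
  have hH3 : W.index ≤ n * n := hH2.trans ((AddSubgroup.index_inf_le).trans (Nat.mul_le_mul hin hjn))
  let fN := AddSubgroup.fintypeOfIndexNeZero hN1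
  let fP := AddSubgroup.fintypeOfIndexNeZero hP1
  let fH := AddSubgroup.fintypeOfIndexNeZero hH1
  have hcN : Fintype.card (S0 φ ⧸ ((φ j).range.comap ((φ k).comp (co φ k)))) ≤ n := by
    rw [← Nat.card_eq_fintype_card]
    exact hN2.trans hjn
  have hcP : Fintype.card (S0 φ ⧸ (dsK φ hik).range) ≤ n := by
    rw [← Nat.card_eq_fintype_card]
    exact hP2.trans hkn
  have hcH : Fintype.card (H ⧸ W) ≤ n * n := by
    rw [← Nat.card_eq_fintype_card]
    exact hH3
  -- the uniform part is small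
  have hsmall : ∀ s : S0 φ, ‖M (fun x => Fu (x + s) * R x)‖ ≤ c / 8 := by
    intro s
    have h1 := ker_bound hM hMI hE hik hNle (fun x => Fu (x + s)) (hFub.comp _) (fun t ht x => by
        rw [show x + t + s = (x + s) + t by abel, hFui t ht]) (fun l x => (f l x : ℂ))
      (fun l x => hfn l x) ε hε.le (fun ψ hψ => by
        have h2 : M (fun x => conj (ψ x) * Fu (x + s)) = ψ s * M (fun x => conj (ψ x) * Fu x) := by
          rw [← hMI (fun x => conj (ψ x) * Fu x) (hψ.bd.conj.mul hFub) s, ← M_cmul]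
          refine M_congr M fun x => ?_
          rw [hψ.1, map_mul]
          have := conj_mul_one (hψ.2 s)
          linear_combination (-(conj (ψ x) * Fu (x + s))) * this
        rw [h2, norm_mul, hψ.2, one_mul]
        exact hFuψ ψ hψ) (by
        rw [hMI (fun x => ((‖Fu x‖ ^ 2 : ℝ) : ℂ)) hFub.nsq s]
        exact hFun)
    have h2 : M (fun x => Fu (x + s) * ∏ l ∈ univ.erase i, (f l (x.1 l) : ℂ)) =
        M (fun x => Fu (x + s) * R x) := M_congr M fun x => by rw [hR]
    rw [h2] at h1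
    have h3 : ‖M (fun x => Fu (x + s) * R x)‖ ^ 2 ≤ (c / 8) ^ 2 := by
      refine h1.trans ?_
      have h4 : √(Fintype.card (S0 φ ⧸ (dsK φ hik).range) : ℝ) ≤ n + 1 := by
        rw [Real.sqrt_le_left (by positivity)]
        have : (Fintype.card (S0 φ ⧸ (dsK φ hik).range) : ℝ) ≤ n := by exact_mod_cast hcP
        nlinarith
      have h5 : (Fintype.card (S0 φ ⧸ ((φ j).range.comap ((φ k).comp (co φ k)))) : ℝ) ≤ n + 1 := by
        have : (Fintype.card (S0 φ ⧸ ((φ j).range.comap ((φ k).comp (co φ k)))) : ℝ) ≤ n := by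
          exact_mod_cast hcN
        linarith
      calc (Fintype.card (S0 φ ⧸ ((φ j).range.comap ((φ k).comp (co φ k)))) : ℝ) *
            (√(Fintype.card (S0 φ ⧸ (dsK φ hik).range)) * ε) ≤ (n + 1) * ((n + 1) * ε) :=
            mul_le_mul h5 (mul_le_mul_of_nonneg_right h4 hε.le) (by positivity) (by positivity)
        _ = (c / 8) ^ 2 := by
            rw [hεd]
            field_simp
    exact le_of_sq_le_sq h3 (by positivity)
  -- the characters
  have hT : ∀ ψ : S0 φ → ℂ, ∃ χ : AddChar H Circle, ψ ∈ Q → (M (fun x => ψ x * R x) = 0 ∨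
      ∀ s : S0 φ, ((χ (φ i (s.1 i)) : Circle) : ℂ) = ψ s) := by
    intro ψ
    by_cases hψ : ψ ∈ Q
    · by_cases h0 : M (fun x => ψ x * R x) = 0
      · exact ⟨1, fun _ => Or.inl h0⟩
      · have hch := hQch ψ hψ
        have h1 : ∀ s : S0 φ, (∀ l, l ≠ i → s.1 l = 0) → ψ s = 1 := by
          intro s hs
          have h2 := hMI (fun x => ψ x * R x) (hch.bd.mul hRb) s
          have h3 : M (fun x => ψ (x + s) * R (x + s)) = ψ s * M (fun x => ψ x * R x) := by
            rw [← M_cmul]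
            refine M_congr M fun x => ?_
            have h4 : R (x + s) = R x := by
              rw [hR, hR]
              refine prod_congr rfl fun l hl => ?_
              congr 2
              show x.1 l + s.1 l = x.1 l
              rw [hs l (ne_of_mem_erase hl), add_zero]
            rw [h4, hch.1]
            ring
          rw [h3] at h2
          exact mul_right_cancel₀ h0 (by rw [h2, one_mul])
        obtain ⟨θ, hθ, hθ2⟩ := ext_ch ((φ i).comp (co φ i)) hch (by
          intro s hs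
          have hs' : φ i (s.1 i) + φ j 0 = 0 := by
            rw [map_zero, add_zero]
            exact hs
          have h5 : s = two φ hij hs' + (s - two φ hij hs') := by abel
          rw [h5, hch.1, h1 (two φ hij hs') ?_, one_mul]
          · apply hQtriv ψ hψ
            show s.1 i - (two φ hij hs').1 i = 0
            rw [two_i, sub_self]
          · intro l hl
            by_cases hlj : l = j
            · rw [hlj, two_k]
            · exact two_j φ hij hs' hl hlj)
        obtain ⟨χ, hχ⟩ := toAC hθ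
        exact ⟨χ, fun _ => Or.inr fun s => by
          rw [hχ]
          exact hθ2 s⟩
    · exact ⟨1, fun h => absurd h hψ⟩
  choose T hT using hT
  have hU : ∀ χ : AddChar (H ⧸ W) ℂ, ∃ χ' : AddChar H Circle, ∀ x, ((χ' x : Circle) : ℂ) = χ (x : H ⧸ W) :=
    fun χ => toAC (isCh_q χ)
  choose U hU using hU
  refine ⟨univ.image U ∪ Q.image T, ?_, ?_⟩
  · refine (card_union_le _ _).trans (add_le_add ?_ ?_)
    · refine card_image_le.trans ?_
      rw [card_univ, AddChar.card_eq]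
      exact hcH
    · refine card_image_le.trans ?_
      have h1 : (Q.card : ℝ) ≤ ⌈1 / ε ^ 2⌉₊ := by
        refine le_trans ?_ (Nat.le_ceil _)
        rw [le_div_iff₀ (by positivity)]
        exact hQc
      exact_mod_cast h1
  · intro g hg
    have hgH : g ∈ W := by
      apply mem_of_ch
      intro χ
      rw [← hU]
      exact lt_of_lt_of_le (hg _ (mem_union_left _ (mem_image_of_mem _ (mem_univ χ)))) (min_le_left _ _)
    obtain ⟨s, hs⟩ := hgH
    have hs' : φ i (s.1 i) = g := hs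
    -- the main computation
    have hterm : ∀ ψ ∈ Q, ‖cf M F1 ψ * (ψ s - 1) * M (fun x => ψ x * R x)‖ ≤ c * ε ^ 2 / 4 := by
      intro ψ hψ
      rcases hT ψ hψ with h0 | h1
      · rw [h0, mul_zero, norm_zero]
        positivity
      · have h2 := hg (T ψ) (mem_union_right _ (mem_image_of_mem _ hψ))
        rw [← hs', h1 s] at h2
        have h3 : ‖cf M F1 ψ‖ ≤ 1 := by
          unfold cf
          refine hM.norm_le 1 fun x => ?_
          rw [norm_mul, RCLike.norm_conj, (hQch ψ hψ).2, one_mul]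
          exact hF1n x
        have h4 : ‖M (fun x => ψ x * R x)‖ ≤ 1 := by
          refine hM.norm_le 1 fun x => ?_
          rw [norm_mul, (hQch ψ hψ).2, one_mul]
          exact hRn x
        rw [norm_mul, norm_mul]
        have h5 := (lt_of_lt_of_le h2 (min_le_right _ _)).le
        calc ‖cf M F1 ψ‖ * ‖ψ s - 1‖ * ‖M (fun x => ψ x * R x)‖ ≤ 1 * (c * ε ^ 2 / 4) * 1 :=
              mul_le_mul (mul_le_mul h3 h5 (norm_nonneg _) zero_le_one) h4 (norm_nonneg _)
                (by positivity)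
          _ = c * ε ^ 2 / 4 := by ring
    have hsum : ‖∑ ψ ∈ Q, cf M F1 ψ * (ψ s - 1) * M (fun x => ψ x * R x)‖ ≤ c / 4 := by
      refine (norm_sum_le _ _).trans ((sum_le_sum hterm).trans ?_)
      rw [sum_const, nsmul_eq_mul]
      nlinarith
    have hdiff : M (fun x => F1 (x + s) * R x) = M (fun x => F1 x * R x) +
        (M (fun x => Fu (x + s) * R x) - M (fun x => Fu (x + 0) * R x)) +
        ∑ ψ ∈ Q, cf M F1 ψ * (ψ s - 1) * M (fun x => ψ x * R x) := by
      rw [← sum_congr rfl fun ψ _ => M_cmul M (cf M F1 ψ * (ψ s - 1)) (fun x => ψ x * R x), ← M_sum,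
        ← M_sub, ← M_add, ← M_add]
      refine M_congr M fun x => ?_
      have e1 : fS M F1 Q (x + s) - fS M F1 Q x = ∑ ψ ∈ Q, cf M F1 ψ * (ψ s - 1) * ψ x := by
        unfold fS
        rw [← sum_sub_distrib]
        refine sum_congr rfl fun ψ hψ => ?_
        rw [(hQch ψ hψ).1]
        ring
      have e2 : ∑ ψ ∈ Q, cf M F1 ψ * (ψ s - 1) * (ψ x * R x) =
          (∑ ψ ∈ Q, cf M F1 ψ * (ψ s - 1) * ψ x) * R x := by
        rw [sum_mul]
        exact sum_congr rfl fun ψ _ => by ring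
      rw [e2, ← e1, hFu, hFu, add_zero]
      ring
    have hdd : ‖M (fun x => F1 (x + s) * R x) - M (fun x => F1 x * R x)‖ ≤ c := by
      have h1 : M (fun x => F1 (x + s) * R x) - M (fun x => F1 x * R x) =
          (M (fun x => Fu (x + s) * R x) - M (fun x => Fu (x + 0) * R x)) +
          ∑ ψ ∈ Q, cf M F1 ψ * (ψ s - 1) * M (fun x => ψ x * R x) := by
        linear_combination hdiff
      rw [h1]
      refine ((norm_add_le _ _).trans (add_le_add ((norm_sub_le _ _).trans
          (add_le_add (hsmall s) (hsmall 0))) hsum)).trans ?_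
      linarith
    refine ⟨Pi.single i (s.1 i), ?_, ?_⟩
    · rw [Fintype.sum_eq_single i]
      · rw [Pi.single_eq_same]
        exact hs'
      · intro l hl
        rw [Pi.single_eq_of_ne hl, map_zero]
    · refine le_trans ?_ (le_dstar' (sol φ A (Pi.single i (s.1 i))) hM hMI)
      have h2 : M (fun x => (((sol φ A (Pi.single i (s.1 i))).indicator (fun _ => (1 : ℝ)) x : ℝ) : ℂ)) =
          M (fun x => F1 (x + s) * R x) := by
        refine M_congr M fun x => ?_
        rw [ind_sol, hF1, hR]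
        push_cast
        rw [← mul_prod_erase univ _ (mem_univ i), Pi.single_eq_same, hf]
        congr 1
        refine prod_congr rfl fun l hl => ?_
        rw [hf, Pi.single_eq_of_ne (ne_of_mem_erase hl), add_zero]
      rw [h2]
      have h3 := (abs_le.1 ((Complex.abs_re_le_norm _).trans hdd)).1
      rw [Complex.sub_re] at h3
      linarith

end Pool.Agent.KS6_71.BO
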