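import Pool.Agent.KS6_71.BO.Dens

/-! The density of the solutions depends on the value only; the uniform positive theorem. -/

set_option autoImplicit false
open Filter Topology Finset

namespace Pool.Agent.KS6_71.BO

open Pool.Agent.V11180.BG hiding sg S0 mem_S0 co co_apply two_mem two two_i two_k two_j K2 dsS dsK ker_bound solF bohr_main dg density

universe u

/-- the upper Banach density is invariant under translations -/
theorem dstar_tr {G : Type u} [AddCommGroup G] (A B : Set G) (a : G) (h : ∀ x, x ∈ B ↔ x + a ∈ A) :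
    dstar B = dstar A := by
  unfold dstar
  congr 1
  have e : indB B = trR a (indB A) := by
    apply Subtype.ext
    funext x
    show B.indicator (fun _ => (1 : ℝ)) x = A.indicator (fun _ => (1 : ℝ)) (x + a)
    by_cases hx : x ∈ B
    · rw [Set.indicator_of_mem hx, Set.indicator_of_mem ((h x).1 hx)]
    · rw [Set.indicator_of_notMem hx, Set.indicator_of_notMem (fun h' => hx ((h x).2 h'))]
  ext r
  constructor
  · rintro ⟨m, hm, rfl⟩
    exact ⟨m, hm, by rw [e, hm.inv]⟩
  · rintro ⟨m, hm, rfl⟩
    exact ⟨m, hm, by rw [e, hm.inv]⟩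

section
variable {ι : Type} [Fintype ι] {G : ι → Type u} [∀ j, AddCommGroup (G j)]
  {H : Type u} [AddCommGroup H] (φ : ∀ j, G j →+ H)

theorem dstar_sol_eq (A : ∀ j, Set (G j)) (t t' : ∀ j, G j)
    (h : ∑ j, φ j (t j) = ∑ j, φ j (t' j)) : dstar (sol φ A t) = dstar (sol φ A t') := by
  refine dstar_tr _ _ ⟨t - t', ?_⟩ fun x => ?_
  · show ∑ j, φ j (t j - t' j) = 0
    simp only [map_sub, sum_sub_distrib]
    rw [h, sub_self]
  · show (∀ j, x.1 j + t j ∈ A j) ↔ ∀ j, (x.1 j + (t j - t' j)) + t' j ∈ A j
    refine forall_congr' fun j => ?_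
    rw [show (x.1 j + (t j - t' j)) + t' j = x.1 j + t j by abel]

end

end Pool.Agent.KS6_71.BO
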